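import Pool.Agent.H8.BV.Targets

/-!
# Board bv_modules, module GLX: the germ over the generic line
-/

set_option autoImplicit false

open MvPolynomial
open Pool.Agent.H12.ZD (pmap)
open Pool.Agent.H18.HIT Pool.Agent.H18.HX Pool.Agent.H18.VZ
open Pool.Agent.H8.BIG (KF line)
open Pool.Agent.H8.BV

namespace Pool.Agent.H39.BV

theorem jac_cons {N : ℕ} {K : Type} [Field K] (P : Po (N + 1) K) :
    jac (Fin.cons P (fun i : Fin N => X i.succ) : Tup (N + 1) K) = pderiv 0 P := by
  unfold jac
  rw [Matrix.det_succ_column_zero, Fin.sum_univ_succ]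
  have h0 : ∀ i : Fin N, (Matrix.of fun i j => pderiv j
      ((Fin.cons P (fun i : Fin N => X i.succ) : Tup (N + 1) K) i)) i.succ 0 = 0 := by
    intro i
    rw [Matrix.of_apply, Fin.cons_succ, pderiv_X]
    exact Pi.single_eq_of_ne (Fin.succ_ne_zero i) _
  have h1 : (Matrix.of fun i j => pderiv j
      ((Fin.cons P (fun i : Fin N => X i.succ) : Tup (N + 1) K) i)).submatrix
        (Fin.succAbove 0) Fin.succ = (1 : Matrix (Fin N) (Fin N) (Po (N + 1) K)) := by
    ext1 i j
    rw [Matrix.submatrix_apply, Matrix.of_apply, Fin.succAbove_zero, Fin.cons_succ, pderiv_X,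
      Matrix.one_apply]
    by_cases h : i = j
    · subst h
      rw [if_pos rfl, Pi.single_eq_same]
    · rw [if_neg h]
      exact Pi.single_eq_of_ne (fun h' => h (Fin.succ_injective _ h')) _
  rw [h1, Matrix.det_one, Finset.sum_eq_zero]
  · simp
  · intro i _
    rw [h0 i]
    simp

theorem eval_map_alg {N : ℕ} {k K : Type} [Field k] [Field K] [Algebra k K] (Q : Po N k)
    (y : Fin N → k) :
    eval (fun i => algebraMap k K (y i)) (map (algebraMap k K) Q) =
      algebraMap k K (eval y Q) := by
  induction Q using MvPolynomial.induction_on with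
  | C a => simp
  | add p q hp hq => rw [map_add, map_add, hp, hq, map_add, map_add]
  | mul_X p i hp => rw [map_mul, map_mul, hp, map_X, eval_X, map_mul, eval_X, map_mul]

theorem pf_GLX (hFCL : Pool.Agent.H8.BIG.T_FCL) : T_GLX := by
  intro N k _ P y hP hd
  have hinj : Function.Injective (algebraMap k (KF N k)) := (algebraMap k (KF N k)).injective
  obtain ⟨γ, hγ1, hγ2⟩ := hFCL (N + 1) (KF N k)
    (Fin.cons (map (algebraMap k (KF N k)) P) (fun i : Fin N => X i.succ))
    (fun i => algebraMap k (KF N k) (y i)) (Fin.cons 0 (line (tl y))) (by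
      rw [jac_cons, pderiv_map, eval_map_alg]
      intro h
      apply hd
      apply hinj
      rw [h, map_zero]) (by
      intro i
      refine Fin.cases ?_ (fun i => ?_) i
      · rw [Fin.cons_zero, Fin.cons_zero, eval_map_alg, hP]
        simp
      · rw [Fin.cons_succ, Fin.cons_succ, eval_X]
        simp [line, tl])
  refine ⟨γ, hγ1, ?_, fun i => ?_⟩
  · have h := hγ2 0
    rw [Fin.cons_zero, Fin.cons_zero, aeval_map_algebraMap] at h
    exact h
  · have h := hγ2 i.succ
    rw [Fin.cons_succ, Fin.cons_succ, aeval_X] at h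
    exact h

end Pool.Agent.H39.BV
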